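import Mathlib
import Pool.Agent.H84.TukF

/-! A free topological group whose neighbourhood filter is not Tukey below `ω^ω × U^ω`. -/

namespace Pool.Agent.Results.MP_f56686_gt.NotBelow

open Set Filter Pool.Agent.H84.Tuk

/-- the coordinatewise order on a product -/
def prodLE {P Q : Type*} (r : P → P → Prop) (s : Q → Q → Prop) : P × Q → P × Q → Prop :=
  fun a b => r a.1 b.1 ∧ s a.2 b.2

theorem result : ∃ (Y : Type) (_ : UniformSpace Y), T2Space Y ∧ Narrow Y ∧
    ∃ t : TopologicalSpace (FreeGroup Y), IsFreeTop Y t ∧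
      ¬ TukeyLE (revIncl (@nhds _ t 1))
        (prodLE (fun f g : ℕ → ℕ => ∀ n, f n ≤ g n) (seqLE (revIncl (uniformity Y)))) := by
  obtain ⟨t, ht⟩ := exists_free X
  refine ⟨X, inferInstance, t2, narrow, t, ht, ?_⟩
  rintro ⟨f, hf⟩
  have hk : ∀ V : {s // s ∈ uniformity X}, ∃ m : ℕ,
      ((some (.inr m), none) : X × X) ∈ V.1 := fun V => by
    obtain ⟨A, n, -, h⟩ := mem_unif.1 V.2
    exact ⟨n, h (Or.inr ⟨le_refl n, trivial⟩)⟩
  choose k hk using hk
  refine not_le ht ⟨fun q => f (fun n => k (q n), q), fun S hS => ?_⟩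
  rw [← image_image f fun q : ℕ → {s // s ∈ uniformity X} => (fun n => k (q n), q)]
  refine hf _ ?_
  rintro ⟨h, p⟩
  obtain ⟨q, hq, h1⟩ := hS fun n => ⟨(p n).1 ∩ E ∅ (h n),
    inter_mem (p n).2 (mem_unif.2 ⟨∅, h n, countable_empty, subset_rfl⟩)⟩
  refine ⟨_, ⟨q, hq, rfl⟩, fun n => ?_, fun n => (h1 n).trans inter_subset_left⟩
  rcases (h1 n (hk (q n))).2 with e | e
  · cases e
  · exact e.1

end Pool.Agent.Results.MP_f56686_gt.NotBelow
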